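import Pool.Agent.L5helper26.CD.Final
import Pool.Agent.Y228.RR.Top

set_option autoImplicit false

/-! # Critical points on divisors give roots of the Bernstein-Sato polynomial of an ideal

Let `I = (f_j)` be an arbitrary ideal of `ℂ[x_i]`, `i ∈ σ`, let `Y → ℂ ^ n` be a log resolution of `I`
(or any birational morphism from a smooth variety), let `E` be a prime divisor on `Y`, exceptional or
not, `a = ord_E I > 0`, `ν = k + 1`, `k = ord_E K`. Let `p` be a point of `E`, possibly on other
components `E_w` of the divisor of `I`, which cross normally at `p`. The ideal defines a morphism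
`π : Y → Bl_I ℂ ^ n` to the blow-up of `I`; near `π(p)` the blow-up is affine, and its regular
functions are the polynomials in the quotients `F / F0`, `F ∈ I`, where `F0 ∈ I` generates the ideal at
`p`.

**Theorem.** *If some regular function on the blow-up of `I` near `π(p)`, pulled back to `E`, has an
isolated critical point at `p` (in the logarithmic sense for the other components through `p`, and
if the numbers `ε_w = ν_w - a_w ν / a` of these components are not positive integers), then `-ν / a` is a root of
`b_I`.* More generally `-(ν + l) / a` is a root if `l < a` is the order along `E` of a polynomial whose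
leading coefficient along `E` is not in the Jacobian ideal of the function.

There is no condition on the number of variables, on the ideal, or on the position of `-ν / a`
with respect to the log canonical threshold, and `E` need not be a Rees divisor. Examples:

* If `E` is a Rees divisor, that is, `E → Bl_I ℂ ^ n` is generically finite, then there are functions
  on the blow-up which are local coordinates of `E` at a general point of `E`, and the sum of their
  squares has an isolated critical point. This is the starting result `ReesDivisors`.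
* If `F_1 / F_0`, for two elements of `I` of minimal order, has an isolated critical point on `E`, that
  is, if a member of the pencil which they cut out on `E` has an isolated singular point (outside
  the base locus). This applies to ideals with only two generators in any number of variables, for
  which hardly any exceptional divisor is a Rees divisor.
* At a point of `E ∩ E_1` which is on no further component the logarithmic condition holds if the
  restriction of the function to `E ∩ E_1` has an isolated critical point (for instance, for `n = 2`, always)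
  and the function has a non-zero derivative transversally to `E_1`.

The divisor is given by a formal chart at `p`, see `DivisorChart`.

The proof. For `F = ∑ y_j f_j` the functional equation gives
`p b(s) F ^ s = ∑_l ∂_{x_l} (F ^ (s - N) W_l(s)) + R(s)` with `R(s)` in the ideal `(f_j) ^ (s + 1)`
(`CD.rel`). The chart is substituted for `x`, and for the `y_j` functions which are killed by the
derivations `D_w = ∂_w + (∂_w G) ∂_T`, such that `F` becomes `z ^ a T`: here `G` is the function on `E`, with
parameters which linearise it, and `T` a new variable. The coefficient of `z ^ (a s + k + l)` at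
`s = -(k + l + 1) / a` is an identity on `E` (`CD.exp_key`): if `b` does not vanish there, the form
`ω` (the residue) is in the image of `∇ - τ ∇G` over `ℂ⟦w⟧[τ]` up to an element of the Jacobian ideal,
with poles along the `E_w`, which are removed one by one (`CD.Pk.sol_step`; here the `ε_w` are used).
By the exactness of the Koszul complex of the partial derivatives (`CD.syz_ps`), `ω` is in the Jacobian
ideal, a contradiction. -/

namespace Pool.Agent.Results.MP_ee8c61_ag.CriticalDivisors

open Pool.Agent.W574.SM (IsFunctionalEq)
open Pool.Agent.TH192.DT (topZ)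

section defs

variable {κ : Type}

/-- The formal functions on `Y` at the point `p`: power series in the equation `z` of `E`, whose
coefficients are power series in the coordinates `w ∈ κ` of `E`. -/
abbrev Fun (κ : Type) : Type := PowerSeries (MvPowerSeries κ ℂ)

/-- The partial derivatives of a formal function: with respect to `z` for `none`, and with respect to
`w` for `some w`. -/
noncomputable def partialDeriv : Option κ → Fun κ → Fun κ
  | none, g => PowerSeries.derivative (MvPowerSeries κ ℂ) g
  | some w, g => PowerSeries.mk fun n => MvPowerSeries.pderiv ℂ w (PowerSeries.coeff n g)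

/-- the restriction of a function to `E` -/
noncomputable def res (g : Fun κ) : MvPowerSeries κ ℂ := PowerSeries.constantCoeff g

variable [Fintype κ]

/-- the function `z ^ m * ∏ w, w ^ M w` -/
noncomputable def mono (m : ℕ) (M : κ → ℕ) : Fun κ :=
  PowerSeries.X ^ m * PowerSeries.C (∏ w, MvPowerSeries.X w ^ M w)

end defs

/-- A formal chart at a point `p` of a divisor `E` over the affine space: the coordinates `x_i` as
formal functions `ξ i` of the coordinates `z` (the equation of `E`) and `w ∈ κ`, such that the Jacobian
determinant is `z ^ k * ∏ w ^ (K w)` times a unit, and the ideal `(f_j)` becomes the ideal of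
`z ^ a * ∏ w ^ (A w)`, where `F0` is an element of the ideal which generates it at `p`. So the other
components of the divisor of the ideal through `p` are the `E_w = (w = 0)` with `A w > 0`; they have the
multiplicity `A w`, and the multiplicity `K w` in the relative canonical divisor. (The components of
the relative canonical divisor are components of the divisor of the ideal: `supp`.) -/
structure DivisorChart {σ ι : Type} [Fintype σ] [DecidableEq σ] (f : ι → MvPolynomial σ ℂ)
    (κ : Type) [Fintype κ] where
  /-- the numbering of the coordinates: there are `|σ|` of them, `z` and the `w ∈ κ` -/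
  e : σ ≃ Option κ
  /-- the chart -/
  ξ : σ → Fun κ
  /-- the multiplicity of `E` in the relative canonical divisor -/
  k : ℕ
  /-- the order of the ideal along `E` -/
  a : ℕ
  /-- the multiplicities of the `E_w` in the relative canonical divisor -/
  K : κ → ℕ
  /-- the orders of the ideal along the `E_w` -/
  A : κ → ℕ
  supp : ∀ w, A w = 0 → K w = 0
  /-- an element of the ideal of minimal order at `p` -/
  F0 : MvPolynomial σ ℂ
  F0_mem : F0 ∈ Ideal.span (Set.range f)
  jacobian : ∃ U : Fun κ, IsUnit U ∧
    (Matrix.of fun t i => partialDeriv (e t) (ξ i)).det = mono k K * U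
  divides : ∀ j, mono a A ∣ MvPolynomial.aeval ξ (f j)
  attained : ∃ U : Fun κ, IsUnit U ∧ MvPolynomial.aeval ξ F0 = mono a A * U

namespace DivisorChart

variable {σ ι κ : Type} [Fintype σ] [DecidableEq σ] [Fintype κ] {f : ι → MvPolynomial σ ℂ}

/-- The functions `(F / F0)|_E`, where `F` is an element of the ideal. -/
def quotients (E : DivisorChart f κ) : Set (MvPowerSeries κ ℂ) :=
  {φ | ∃ F ∈ Ideal.span (Set.range f), ∃ v v0 : Fun κ,
    MvPolynomial.aeval E.ξ F = mono E.a E.A * v ∧
    MvPolynomial.aeval E.ξ E.F0 = mono E.a E.A * v0 ∧ φ * res v0 = res v}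

/-- The pull-backs to `E` of the regular functions of the affine chart of the blow-up of the ideal:
the polynomials in the functions `(F / F0)|_E`. -/
noncomputable def blowupFunctions (E : DivisorChart f κ) : Subalgebra ℂ (MvPowerSeries κ ℂ) :=
  Algebra.adjoin ℂ E.quotients

/-- The logarithmic Jacobian ideal of a function `H` on `E`: it is generated by the `∂H / ∂w` with
`A w = 0` and the `w ∂H / ∂w` with `A w > 0`. -/
noncomputable def jacobianIdeal (E : DivisorChart f κ) (H : MvPowerSeries κ ℂ) :
    Ideal (MvPowerSeries κ ℂ) :=
  Ideal.span (Set.range fun w =>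
    (if E.A w = 0 then 1 else MvPowerSeries.X w) * MvPowerSeries.pderiv ℂ w H)

/-- The point `p` is an isolated point of the locus defined by the logarithmic Jacobian ideal (or not
in this locus): some power of every coordinate is in the ideal. -/
def IsIsolated (E : DivisorChart f κ) (H : MvPowerSeries κ ℂ) : Prop :=
  ∀ w, ∃ M : ℕ, (MvPowerSeries.X w : MvPowerSeries κ ℂ) ^ M ∈ E.jacobianIdeal H

/-- `E` has an isolated (logarithmic) critical point at `p`: some function of the blow-up has an
isolated critical point there, and the numbers `ε_w = K w + 1 - A w * (k + 1) / a` of the other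
components through `p` are not positive integers. -/
def IsCritical (E : DivisorChart f κ) : Prop :=
  (∃ H ∈ E.blowupFunctions, E.IsIsolated H ∧ E.jacobianIdeal H ≠ ⊤) ∧
  ∀ w, E.A w ≠ 0 → ∀ n : ℕ, 0 < n → ((E.K w : ℚ) + 1) - E.A w * ((E.k + 1) / E.a) ≠ n

end DivisorChart

/-- **The theorem in a chart.** -/
theorem main {σ ι κ : Type} [Fintype σ] [DecidableEq σ] [Fintype ι] [Fintype κ]
    (f : ι → MvPolynomial σ ℂ) (b : Polynomial ℂ) (hb : IsFunctionalEq f b)
    (E : DivisorChart f κ) (H : MvPowerSeries κ ℂ) (hH : H ∈ E.blowupFunctions)
    (hiso : E.IsIsolated H) (l : ℕ) (hl : l < E.a) (L : κ → ℕ) (hL : ∀ w, E.A w = 0 → L w = 0)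
    (p : MvPolynomial σ ℂ) (V : Fun κ) (hp : MvPolynomial.aeval E.ξ p = mono l L * V)
    (hV : res V ∉ E.jacobianIdeal H)
    (hε : ∀ w, E.A w ≠ 0 → ∀ n : ℕ, 0 < n →
      ((E.K w : ℚ) + L w + 1) - E.A w * ((E.k + l + 1) / E.a) ≠ n) :
    b.eval (-((E.k : ℂ) + l + 1) / E.a) = 0 := by
  obtain ⟨U0, hU0, hJ⟩ := E.jacobian
  obtain ⟨u0, hu0, hF0⟩ := E.attained
  have ha : (E.a : ℂ) ≠ 0 := by
    rw [Nat.cast_ne_zero]
    omega
  have hres : ∀ {U : Fun κ}, IsUnit U → IsUnit (PowerSeries.constantCoeff U) :=
    fun hU => hU.map _
  refine Pool.Agent.L5helper26.CD.final f b hb p E.e E.ξ E.k E.a l hl E.A E.K L E.supp hL U0 V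
    ?_ E.divides ?_ E.F0 E.F0_mem u0 hF0 (hres hu0) E.quotients ?_ H hH _ ?_ ?_ ?_ ?_
  · have h1 : (Matrix.of fun t i => partialDeriv (E.e t) (E.ξ i)) =
        (Matrix.of fun t i => Pool.Agent.L5helper26.CD.thd
          (fun w : κ => MvPowerSeries.pderiv ℂ w) (E.e t) (E.ξ i)) := by
      ext t i : 1
      rw [Matrix.of_apply, Matrix.of_apply]
      cases E.e t with
      | none => rfl
      | some w => rfl
    rw [← h1, hJ, mono, mul_assoc]
    rfl
  · rw [hp, mono, mul_assoc]
    rfl
  · rintro φ ⟨F, hF, v, v0, hv, hv0, hφ⟩
    refine ⟨F, hF, v, hv, ?_⟩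
    have h1 : v0 = u0 := by
      have h2 : mono E.a E.A ≠ (0 : Fun κ) := by
        refine mul_ne_zero (pow_ne_zero _ PowerSeries.X_ne_zero) ?_
        intro h
        have h3 := congrArg PowerSeries.constantCoeff h
        rw [PowerSeries.constantCoeff_C, map_zero] at h3
        exact Finset.prod_ne_zero_iff.2 (fun w _ => pow_ne_zero _
          (Pool.Agent.L5helper26.CD.X_ne κ w)) h3
      exact mul_left_cancel₀ h2 (hv0.symm.trans hF0)
    rw [← h1]
    exact hφ
  · field_simp
    ring
  · intro w hw n hn h
    refine hε w hw n hn ?_
    have ha' : (E.a : ℚ) ≠ 0 := by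
      rw [Nat.cast_ne_zero]
      omega
    have h1 : (((E.K w : ℚ) + L w + 1 - E.A w * ((E.k + l + 1) / E.a) : ℚ) : ℂ) = ((n : ℚ) : ℂ) := by
      push_cast
      rw [← h]
      ring
    exact_mod_cast h1
  · intro w
    exact hiso w
  · intro h
    apply hV
    obtain ⟨c, hc⟩ := (hres hU0).exists_left_inv
    have h1 := Ideal.mul_mem_left _ c h
    rw [← mul_assoc, hc, one_mul] at h1
    exact h1

/-- **Isolated critical points on divisors give roots of the Bernstein-Sato polynomial.** Let
`b` be a polynomial which satisfies a functional equation of the ideal `(f_j)`, in particular the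
Bernstein-Sato polynomial of the ideal.

(1) Let `E` be a (chart at a point `p` of a) divisor, with `a = ord_E I` and `ν = k + 1`, and let `H` be
the pull-back to `E` of a regular function of the blow-up of the ideal such that `p` is an isolated
point of the zero locus of its (logarithmic) Jacobian ideal. Let `p` be a polynomial of the order
`l < a` along `E`, with the leading coefficient `∏ w ^ (L w) * res V` along `E` (`L w = 0` for the `w`
with `A w = 0`), such that `res V` is not in the Jacobian ideal. If the numbers
`K w + L w + 1 - A w * (ν + l) / a` with `A w > 0` are not positive integers, then `b(-(ν + l) / a) = 0`.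
For `l = 0` and `p = 1`, `V = 1`: if `E` is critical at `p` (`IsCritical`) then `b(-ν / a) = 0`.

(2) Let `Z` be the topological zeta function of the ideal, computed on a log resolution with the
components `E_i`, `i ∈ J`, the multiplicities `N i` and `ν i`, and the Euler characteristics `χ` of the
strata (which may be arbitrary integers here). If for every `i` with `N i > 0` which occurs in a stratum
with `χ ≠ 0` some component `E_j` with `N j > 0` and `ν j / N j = ν i / N i` has a point at which it is
critical, then every pole of `Z` is a root of `b`. -/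
theorem result :
    (∀ {σ ι κ : Type} [Fintype σ] [DecidableEq σ] [Fintype ι] [Fintype κ]
      (f : ι → MvPolynomial σ ℂ) (b : Polynomial ℂ) (_ : IsFunctionalEq f b)
      (E : DivisorChart f κ),
      (∀ (H : MvPowerSeries κ ℂ) (_ : H ∈ E.blowupFunctions) (_ : E.IsIsolated H)
        (l : ℕ) (_ : l < E.a) (L : κ → ℕ) (_ : ∀ w, E.A w = 0 → L w = 0)
        (p : MvPolynomial σ ℂ) (V : Fun κ) (_ : MvPolynomial.aeval E.ξ p = mono l L * V)
        (_ : res V ∉ E.jacobianIdeal H)
        (_ : ∀ w, E.A w ≠ 0 → ∀ n : ℕ, 0 < n →
          ((E.K w : ℚ) + L w + 1) - E.A w * ((E.k + l + 1) / E.a) ≠ n),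
        b.eval (-((E.k : ℂ) + l + 1) / E.a) = 0) ∧
      (0 < E.a → E.IsCritical → b.eval (-((E.k : ℂ) + 1) / E.a) = 0)) ∧
    (∀ {σ ι J : Type} [Fintype σ] [DecidableEq σ] [Fintype ι] [Fintype J]
      (f : ι → MvPolynomial σ ℂ) (b : Polynomial ℂ) (_ : IsFunctionalEq f b)
      (N ν : J → ℕ) (_ : ∀ i, 0 < ν i) (χ : Finset J → ℤ)
      (_ : ∀ S i, χ S ≠ 0 → i ∈ S → 0 < N i → ∃ j, 0 < N j ∧ (ν j : ℚ) / N j = (ν i : ℚ) / N i ∧
        ∃ (κ : Type) (_ : Fintype κ) (E : DivisorChart f κ),
          E.a = N j ∧ E.k + 1 = ν j ∧ E.IsCritical) (s₀ : ℂ)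
      (_ : (topZ ν N χ).denom.eval s₀ = 0), b.eval s₀ = 0) := by
  have hcrit : ∀ {σ ι κ : Type} [Fintype σ] [DecidableEq σ] [Fintype ι] [Fintype κ]
      (f : ι → MvPolynomial σ ℂ) (b : Polynomial ℂ) (_ : IsFunctionalEq f b)
      (E : DivisorChart f κ), 0 < E.a → E.IsCritical →
      b.eval (-((E.k : ℂ) + 1) / E.a) = 0 := by
    intro σ ι κ _ _ _ _ f b hb E ha hE
    obtain ⟨⟨H, hH, hiso, htop⟩, hε⟩ := hE
    have h1 := main f b hb E H hH hiso 0 ha 0 (fun _ _ => rfl) 1 1
      (by
        rw [map_one, mono]
        simp)
      (by
        rw [res, map_one]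
        exact fun h => htop ((Ideal.eq_top_iff_one _).2 h))
      (fun w hw n hn => by
        have h2 := hε w hw n hn
        simpa using h2)
    simpa using h1
  refine ⟨fun f b hb E => ⟨fun H hH hiso l hl L hL p V hp hV hε =>
    main f b hb E H hH hiso l hl L hL p V hp hV hε, hcrit f b hb E⟩, ?_⟩
  intro σ ι J _ _ _ _ f b hb N ν hν χ h s₀ hs₀
  obtain ⟨S, hS, i, hiS, hi, rfl⟩ := Pool.Agent.Y228.RR.pole_topZ' ν N χ hν s₀ hs₀
  obtain ⟨j, hj, hij, κ, _, E, hEa, hEk, hE⟩ := h S i hS hiS hi
  have h1 := hcrit f b hb E (by rw [hEa]; exact hj) hE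
  have h2 : -((E.k : ℂ) + 1) / E.a = -(ν i : ℂ) / N i := by
    have h3 : ((E.k : ℂ) + 1) = (ν j : ℂ) := by exact_mod_cast congrArg (Nat.cast (R := ℂ)) hEk
    have h4 : (((ν j : ℚ) / N j : ℚ) : ℂ) = (((ν i : ℚ) / N i : ℚ) : ℂ) := by rw [hij]
    push_cast at h4
    rw [h3, hEa, neg_div, neg_div, h4]
  rw [← h2]
  exact h1

end Pool.Agent.Results.MP_ee8c61_ag.CriticalDivisors
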