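import Pool.Agent.L5helper26.CP.Sch
import Pool.Agent.R852.SC.Poly
import Pool.Agent.W574.CN.Cone

set_option autoImplicit false

/-! # Ideals of forms: critical points of the members and the root `-n/d`

Let `I` be generated by forms `f_j` of the same degree `d` in `n` variables. The exceptional divisor of the
blow-up of the origin has the numbers `N = d`, `ν = n`, so it gives the candidate `-n/d` for a pole of the
topological zeta function. This file gives a criterion (`RootCrit`) for `-n/d` to be a root of the
Bernstein-Sato polynomial, for all `n`, `d` and all ideals of this kind. It holds if a member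
`F = ∑ a_j f_j` of the linear system has an isolated singular point in `ℙ^(n-1)` which is not a base
point, or if `F` is a power of a form without critical points (of degree at least two), or if `n` of the
`f_j` are algebraically independent; the last condition is the one which was used before. The
position of `-n/d` with respect to the log canonical threshold plays no role.

The proof. Let `α = -n/d`, `F = ∑ y_j f_j(x)`. If `b(α) ≠ 0` then the functional equation gives
`F ^ α dx = d (F ^ (α - N) η)` with `η` polynomial in `x` and `y`. Let `G(x, z) ^ K = ∑ y_j(z) f_j(x)`. As `G` is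
homogeneous in `x`, a Laplace transformation gives `dx = (d - τ dG) η'` with `η'` polynomial in `x, z, τ`
(`inIm_const`). So `dx` is exact for `d + dG`. Moreover, adding `q(z)` to `G` does not change anything,
and at an isolated critical point `P` of `G + q` the partial derivatives are a regular sequence in the
local ring, so that their syzygies are trivial (`syz_iso`), and the equation `dx dz = (d - τ d(G + q)) η''`
implies that `1` is in the ideal of the partial derivatives in the local ring at `P` (`const_mem`), a
contradiction. -/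

namespace Pool.Agent.Results.MP_ee8c61_ag.CriticalPointsOfMembers

open MvPolynomial Pool.Agent.W574.SM Pool.Agent.W574.CN Pool.Agent.TH192.DT Pool.Agent.Y231.RF
  Pool.Agent.R852.SC Pool.Agent.L5helper26.CP

/-- Let `f_j` be forms of the same degree `d > 0` in `n ≥ 1` variables and `I = (f_j)`.

(1) If `RootCrit f d` holds then `-n/d` is a root of every polynomial `b` which satisfies a functional
equation of the `f_j`, in particular of `b_I`.

(2) If `n = 3` and `RootCrit f d` holds then every pole of the topological zeta function of `I` is a root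
of `b`.

(3) Let `I = ∏ t, I_t ^ a t`, where `I_t` is generated by forms `g t j` of the degree `δ t > 0`, let `Z_i` be
pairwise disjoint smooth irreducible subvarieties of `ℙ^(n-1)`, of codimension `c i`, such that the ideal
sheaf defined by `I_t` is `∏ i, I(Z_i) ^ m i t` for all `t` (`PowersOfSmooth`, at one point of each of the
`Z_i`), and let `RootCrit` hold for the generators of `I`, of degree `∑ t, a t * δ t`. Every pole of the
topological zeta function `Z` of `I` (computed on the blow-up of the origin and of the cones of the `Z_i`,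
with the numbers `ν = n`, `N_0 = ∑ t, a t * δ t` and `ν = c i`, `N_i = ∑ t, a t * m i t`) is a root of `b`, and
`b Z` is a polynomial if the quotients `ν / N` of components which meet are different.

(4) `RootCrit f d` holds if: (a) a member `F = ∑ a_j f_j`, `a_j ∈ ℂ`, has an isolated singular point `p` in the
projective space, and `f_j(p) ≠ 0` for some `j`; (b) `n` of the `f_j` have a nonzero Jacobian determinant; (c)
a member is `F ^ K`, where `F` is a form of degree `e ≥ 2`, `K e = d`, of which the partial derivatives have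
no common zero except the origin. -/
theorem result :
    (∀ {ι σ : Type} [Fintype ι] [Fintype σ] [DecidableEq σ] [Nonempty σ]
      (f : ι → MvPolynomial σ ℂ) (d : ℕ) (_ : 0 < d) (_ : ∀ j, (f j).IsHomogeneous d)
      (b : Polynomial ℂ) (_ : IsFunctionalEq f b) (_ : RootCrit f d),
      b.eval (-(Fintype.card σ : ℂ) / d) = 0) ∧
    (∀ {ι : Type} [Fintype ι] (f : ι → MvPolynomial (Fin 3) ℂ) (d : ℕ) (_ : 0 < d)
      (_ : ∀ j, (f j).IsHomogeneous d) (b : Polynomial ℂ) (_ : IsFunctionalEq f b)
      (_ : RootCrit f d) (Z : RatFunc ℂ) (_ : ConeZeta f d Z) (s₀ : ℂ)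
      (_ : Z.denom.eval s₀ = 0), b.eval s₀ = 0) ∧
    (∀ {σ T I : Type} [Fintype σ] [DecidableEq σ] [Fintype T] [DecidableEq T] [Fintype I]
      {κ : T → Type} [∀ t, Fintype (κ t)] [∀ t, DecidableEq (κ t)]
      (g : (t : T) → κ t → MvPolynomial σ ℂ) (δ : T → ℕ) (_ : ∀ t, 0 < δ t)
      (_ : ∀ t j, (g t j).IsHomogeneous (δ t)) (_ : ∀ t, ∃ j, g t j ≠ 0) (a : T → ℕ)
      (_ : ∃ t, a t ≠ 0)
      (_ : RootCrit (prodFam fun q : Σ t, Fin (a t) => g q.1) (∑ t, a t * δ t))
      (c : I → ℕ) (m : I → T → ℕ) (p : I → σ → ℂ)
      (_ : ∀ i, PowersOfSmooth g (c i) (m i) (p i)) (χ : Finset (Option I) → ℤ) (b : Polynomial ℂ)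
      (_ : IsFunctionalEq (prodFam fun q : Σ t, Fin (a t) => g q.1) b),
      (∀ s₀ : ℂ, (topZ (fun o : Option I => o.elim (Fintype.card σ) c)
        (fun o => ∑ t, a t * o.elim δ m t) χ).denom.eval s₀ = 0 → b.eval s₀ = 0) ∧
      ((∀ J, χ J ≠ 0 → ∀ o ∈ J, ∀ o' ∈ J, o ≠ o' → 0 < ∑ t, a t * o.elim δ m t →
          0 < ∑ t, a t * o'.elim δ m t → o.elim (Fintype.card σ) c * ∑ t, a t * o'.elim δ m t ≠
            o'.elim (Fintype.card σ) c * ∑ t, a t * o.elim δ m t) →
        ∃ P : Polynomial ℂ, algebraMap (Polynomial ℂ) (RatFunc ℂ) b *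
          topZ (fun o : Option I => o.elim (Fintype.card σ) c)
            (fun o => ∑ t, a t * o.elim δ m t) χ = algebraMap (Polynomial ℂ) (RatFunc ℂ) P)) ∧
    (∀ {ι σ : Type} [Fintype ι] [Fintype σ] [DecidableEq σ] (f : ι → MvPolynomial σ ℂ) (d : ℕ)
      (_ : 0 < d) (_ : ∀ j, (f j).IsHomogeneous d),
      (∀ (a : ι → ℂ) (p : σ → ℂ), IsIsolatedSingular (∑ j, C (a j) * f j) p →
        (∃ j, eval p (f j) ≠ 0) → RootCrit f d) ∧
      (∀ e : σ → ι, (Matrix.of fun s t => pderiv s (f (e t))).det ≠ 0 → RootCrit f d) ∧
      ∀ (K e : ℕ) (F : MvPolynomial σ ℂ) (a : ι → ℂ), K * e = d → 2 ≤ e → F.IsHomogeneous e →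
        (∀ v : σ → ℂ, (∀ k, eval v (pderiv k F) = 0) → v = 0) → F ^ K = ∑ j, C (a j) * f j →
        RootCrit f d) := by
  refine ⟨?_, ?_, ?_, ?_⟩
  · intro ι σ _ _ _ _ f d hd hf b hb h
    exact root_main f d hd hf b hb h
  · intro ι _ f d hd hf b hb h Z hZ s₀ hs₀
    classical
    by_cases h3 : s₀ = -3 / d
    · rw [h3]
      have h1 := root_main f d hd hf b hb h
      rw [Fintype.card_fin] at h1
      exact_mod_cast h1
    · exact cone_main f d hd hf b hb Z hZ s₀ hs₀ (Or.inl h3)
  · intro σ T I _ _ _ _ _ κ _ _ g δ hδ hg hg0 a ha hJ c m p hp χ b hb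
    have : Nonempty T := ⟨ha.choose⟩
    have := nonempty_of g δ hδ hg hg0
    have hν : ∀ o : Option I, 0 < o.elim (Fintype.card σ) c := fun o =>
      nuC_pos (T := T) g c m p hp (Sum.inl o)
    have hr : ∀ o : Option I, 0 < ∑ t, a t * o.elim δ m t →
        b.eval (-((o.elim (Fintype.card σ) c : ℕ) : ℂ) / (∑ t, a t * o.elim δ m t : ℕ)) = 0 :=
      fun o ho => comp_root g δ hδ hg hg0 a ha hJ c m p hp b hb o ho
    refine ⟨fun s₀ hs₀ => ?_, fun hd => ?_⟩
    · obtain ⟨J, _, o, _, hN, rfl⟩ := Pool.Agent.Y228.RR.pole_topZ' _ _ χ hν s₀ hs₀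
      exact hr o hN
    · classical
      exact topZ_mul _ _ hν χ b hr hd
  · intro ι σ _ _ _ f d hd hf
    exact ⟨fun a p hp hb => crit_node f d hd hf a p hp hb,
      fun e he => crit_jac f d hf e he,
      fun K e F a hKe he hF hz hFK => crit_smooth f d K e hKe he F hF hz a hFK⟩

end Pool.Agent.Results.MP_ee8c61_ag.CriticalPointsOfMembers
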