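import Pool.Agent.L5helper37.QI.Main

set_option autoImplicit false

/-! # The strong monodromy conjecture for ideals: ideals generated by affine linear polynomials and by binomials `x_k - x_i x_j` suffice

For every nonzero proper ideal `I = (f_1, …, f_r)` of `ℂ[x_1, …, x_n]` we construct an ideal
`J = (F_1, …, F_(r + κ))` of `ℂ[x_1, …, x_(n + κ)]` in normal form (`Nf F`): each generator has degree at
most one or is a binomial `x_k - x_i x_j` with distinct `i`, `j`, `k`; and `J` defines the same scheme,
embedded in a larger affine space. The conjecture (Q1), and its strong form (Q2), for `J` imply the conjecture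
for `I`. So Q1 and Q2 hold for all ideals if and only if they hold for the ideals in normal form, which are
the linear sections of the graphs of families of products `x_i x_j`.

Construction. Let `c x ^ (a + b)` be a monomial of `f_j`, with `x ^ a = x_i` or `x ^ a = x_i x_k`, `i ≠ k`.
A step replaces the ideal by the one generated by `f_j + c x ^ b (w - x ^ a)`, the other `f_l`, and `w - x ^ a`,
where `w` is a new variable.

Zeta functions. The jets of a step are, after the substitution `e = w - x ^ a` on jets, the jets of the ideal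
`(f_1, …, f_r, e)`, and this gives the motivic zeta function of a step as an explicit function of the one of
`I`. After `κ` steps one obtains for the topological zeta functions the formula
`(s + κ) (Z_J(s) - 1) = s (Z_I(s + κ) - 1)`.

Bernstein-Sato polynomials. If `b(s)` satisfies the functional equation of `I`, then `b(s + κ)` satisfies
the one of `J`. -/

namespace Pool.Agent.Results.MP_ee8c61_ag.QuadraticIdeals

open MvPolynomial Pool.Agent.W428.MOT Pool.Agent.N101.CB Pool.Agent.L5helper37
open Pool.Agent.W574.SM (IsFunctionalEq)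
open Pool.Agent.L5helper37.QI (Nf Ok CR)

/-- `R` is a topological zeta function of the ideal generated by the `f_j`, for the ring homomorphism
`χ : 𝓜 → ℂ` with `χ(𝕃) = 1`, for instance the Euler characteristic: the motivic zeta function
`ztI f univ = ∑_N [X_N] 𝕃 ^ (-n N) T ^ N`, `X_N` the variety of the `N`-jets of `𝔸 ^ n` along which the ideal has
the order `N`, is a polynomial `Q` in the `F_(N, ν) = (𝕃 - 1) 𝕃 ^ (-ν) T ^ N / (1 - 𝕃 ^ (-ν) T ^ N)`, `N, ν ≥ 1`,
with coefficients in `𝓜`, and `R = (χ Q)(1 / (N s + ν))`. By the formula with a log resolution the usual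
topological zeta function of the ideal has this property. -/
def IsTopZeta (χ : MK ℂ →+* ℂ) {n r : ℕ} (f : Fin r → MvPolynomial (Fin n) ℂ) (R : RatFunc ℂ) :
    Prop :=
  IsTop χ (ztI f Set.univ) R

/-- Q1 for the ideal generated by the `f_j`: every pole of a topological zeta function is a root of every
polynomial with a functional equation, in particular of the Bernstein-Sato polynomial of the ideal. -/
def Q1 (χ : MK ℂ →+* ℂ) {n r : ℕ} (f : Fin r → MvPolynomial (Fin n) ℂ) : Prop :=
  ∀ R : RatFunc ℂ, IsTopZeta χ f R → ∀ s : ℂ, ¬ Reg R s →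
    ∀ b : Polynomial ℂ, IsFunctionalEq f b → b.eval s = 0

/-- Q2 for the ideal generated by the `f_j`: the product of a topological zeta function and a polynomial
with a functional equation, in particular the Bernstein-Sato polynomial of the ideal, is a polynomial. -/
def Q2 (χ : MK ℂ →+* ℂ) {n r : ℕ} (f : Fin r → MvPolynomial (Fin n) ℂ) : Prop :=
  ∀ R : RatFunc ℂ, IsTopZeta χ f R → ∀ b : Polynomial ℂ, IsFunctionalEq f b →
    ∃ p : Polynomial ℂ, algebraMap (Polynomial ℂ) (RatFunc ℂ) b * R =
      algebraMap (Polynomial ℂ) (RatFunc ℂ) p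

/-- **Ideals generated by affine linear polynomials and binomials `x_k - x_i x_j` suffice.** Let
`χ : 𝓜 → ℂ` be a ring homomorphism with `χ(𝕃) = 1`.

First part: for all `f_1, …, f_r` in `n` variables which generate a nonzero proper ideal there are `κ` and
`F_1, …, F_(r + κ)` in `n + κ` variables in normal form, which generate a nonzero proper ideal with an
isomorphic quotient, such that
(1) for every topological zeta function `R` of `f` there is a topological zeta function `R'` of `F` with
`(s + κ) (R'(s) - 1) = s (R(s + κ) - 1)`; for `t` different from `0` and `κ`, `t` is a pole of `R` if and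
only if `t - κ` is a pole of `R'`;
(2) a functional equation of `f` with `b(s)` gives one of `F` with `b(s + κ)`;
(3) Q1 for `F` implies Q1 for `f`, and Q2 for `F` implies Q2 for `f`.

Second and third part: Q1 (and Q2) holds for all `f`, in any number of variables, if and only if it holds
for those in normal form. -/
theorem result (χ : MK ℂ →+* ℂ) (hχ : χ ((Lu ℂ : (MK ℂ)ˣ) : MK ℂ) = 1) :
    (∀ {n r : ℕ} (f : Fin r → MvPolynomial (Fin n) ℂ), Ok f →
      ∃ (κ m s : ℕ) (F : Fin s → MvPolynomial (Fin m) ℂ), m = n + κ ∧ s = r + κ ∧ Nf F ∧ Ok F ∧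
        Nonempty (CR F ≃ₐ[ℂ] CR f) ∧
        (∀ R : RatFunc ℂ, IsTopZeta χ f R → ∃ R' : RatFunc ℂ, IsTopZeta χ F R' ∧
          (RatFunc.X + (κ : RatFunc ℂ)) * (R' - 1) = RatFunc.X * (shR (κ : ℂ) R - 1) ∧
          ∀ t : ℂ, t ≠ 0 → t ≠ κ → (¬ Reg R t ↔ ¬ Reg R' (t - κ))) ∧
        (∀ b : Polynomial ℂ, IsFunctionalEq f b →
          IsFunctionalEq F (b.comp (Polynomial.X + Polynomial.C (κ : ℂ)))) ∧
        (Q1 χ F → Q1 χ f) ∧ (Q2 χ F → Q2 χ f)) ∧
    ((∀ (n r : ℕ) (f : Fin r → MvPolynomial (Fin n) ℂ), Ok f → Q1 χ f) ↔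
      ∀ (n r : ℕ) (f : Fin r → MvPolynomial (Fin n) ℂ), Nf f → Ok f → Q1 χ f) ∧
    ((∀ (n r : ℕ) (f : Fin r → MvPolynomial (Fin n) ℂ), Ok f → Q2 χ f) ↔
      ∀ (n r : ℕ) (f : Fin r → MvPolynomial (Fin n) ℂ), Nf f → Ok f → Q2 χ f) := by
  refine ⟨fun {n r} f hf => ?_, ⟨fun h n r f _ => h n r f, fun h n r f hf => ?_⟩,
    ⟨fun h n r f _ => h n r f, fun h n r f hf => ?_⟩⟩
  · obtain ⟨κ, m, s, F, hm, hs, hF, hl⟩ := QI.exists_nf f
    refine ⟨κ, m, s, F, hm, hs, hF, hl.ok hf, hl.iso, fun R hR => ?_, hl.b hf, QI.q1_of hχ hl hf,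
      QI.q2_of hχ hl hf⟩
    obtain ⟨R', h1, h2⟩ := hl.top χ hχ R hR
    exact ⟨R', h1, h2, fun t h0 h3 =>
      ⟨fun h4 h5 => h4 (h2.reg h3 h5), fun h4 h5 => h4 (h2.reg' h0 h5)⟩⟩
  · obtain ⟨κ, m, s, F, -, -, hF, hl⟩ := QI.exists_nf f
    exact QI.q1_of hχ hl hf (h m s F hF (hl.ok hf))
  · obtain ⟨κ, m, s, F, -, -, hF, hl⟩ := QI.exists_nf f
    exact QI.q2_of hχ hl hf (h m s F hF (hl.ok hf))

end Pool.Agent.Results.MP_ee8c61_ag.QuadraticIdeals
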