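import Pool.Agent.L5helper20.MQ.Base

set_option autoImplicit false

/-! # The stronger form (Q2): sums, products, powers and Thom-Sebastiani sums

Let `Q2` be the stronger form of the conjecture: `b_I(s) Z_I(s)` is a polynomial, so that the orders
of the poles are at most the multiplicities of the roots of `b_I`. We prove that `Q2` is inherited
by sums, products and powers of ideals, by the universal forms `∑ y_j f_j`, by the products
`h ∏_t (∑_j y_{t, j} f_{t, j}) ^ a_t` of powers of such forms and by the Thom-Sebastiani sums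
`∑ y_j f_j(x) + g(z)`. Together with the ideals for which `Q2` was known (the ideals of `ℂ[x, y]`,
the ideals and hypersurfaces with very general coefficients at the vertices, and ideals generated by
forms, for which the poles are simple and are known to be roots), this gives `Q2` for a large class
`Gen`, for instance for all the ideals `I_1 + ⋯ + I_r`, `(I_1 + I_2 ^ k) I_3` and so on, where the `I_i` are arbitrary
ideals of `ℂ[x_i, y_i]`.

For the location of the poles (Q1) there are starting results of this kind (`DegreeOneIdeals`);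
the multiplicities are new, and so is the operation `I ↦ I ^ k` for ideals.

The proof (in `Pool.Agent.L5helper20.MQ`):

* `lap_order`, `lap2_order`: the orders of the poles of the Laplace transforms which describe the
  zeta functions of sums; with `FM_sum` (if `(s - α) ^ m` and `(s - β) ^ n` divide all the functional
  equations of `I` and `J` then `(s - α - β) ^ (m + n - 1)` divides those of `I + J`) this gives the
  theorem for sums, and similarly for Thom-Sebastiani sums (`fm_ts`);
* products: `FM_mul`, multiplicities add up; forms: `fm_univ` and `fm_form`;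
* powers: `fe_pow`: if `b(s)` satisfies a functional equation of `I ^ k` then, up to a product of
  factors `s - i`, `i ∈ ℕ`, `b(s / k)` satisfies one of `I`. The functional equation of `I ^ k` is
  written with falling factorials (`nf_of_fe`), summed over the monomials with a given image under
  `z_J ↦ ∏_i y_{J(i)}` (`pow_ident`), and extended from the degrees divisible by `k` to all
  degrees (`dense`). -/

namespace Pool.Agent.Results.MP_ee8c61_ag.StrongerFormClosure

open MvPolynomial Pool.Agent.W574.SM Pool.Agent.W574.CN Pool.Agent.W574.RO Pool.Agent.Y229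
open Pool.Agent.W425.SM Pool.Agent.W425.SV Pool.Agent.W422.GC Pool.Agent.W425.SU
open Pool.Agent.W425.SI Pool.Agent.Y230.TH Pool.Agent.R852.TP
open Pool.Agent.H628R4.TP (IsBFunction)

/-- The generators `∏_{i < k} f_{J(i)}` of the power `I ^ k` of the ideal `I = (f_j)`. -/
@[reducible] noncomputable def powFam (A : Fam) (k : ℕ) : Fam :=
  ⟨A.σ, Fin k → A.ι, fun J => ∏ i, A.f (J i)⟩

/-- Pairs `(A, Z)` of a family of generators of an ideal and of its topological zeta function: the
least class with the following properties. -/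
inductive Gen : Fam → RatFunc ℂ → Prop
  /-- all the pairs for which the stronger form is known: `b Z` is a polynomial for all the
  functional equations `b`, and the poles of `Z` have negative real part (which is the case for all
  topological zeta functions) -/
  | given (A : Fam) (Z : RatFunc ℂ) (h1 : Finite A.σ) (h2 : ∃ j, A.f j ≠ 0)
      (h3 : ∀ s : ℂ, Z.denom.eval s = 0 → s.re < 0)
      (h4 : ∀ b : Polynomial ℂ, IsFunctionalEq A.f b → ∃ P : Polynomial ℂ,
        algebraMap (Polynomial ℂ) (RatFunc ℂ) b * Z = algebraMap (Polynomial ℂ) (RatFunc ℂ) P) :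
      Gen A Z
  /-- all the nonzero ideals of `ℂ[x, y]` -/
  | plane (κ : Type) [Fintype κ] (f : κ → MvPolynomial (Fin 2) ℂ) (hf : ∃ j, f j ≠ 0)
      (Z : RatFunc ℂ) (hZ : PlaneZeta f Z) : Gen ⟨Fin 2, κ, f⟩ Z
  /-- ideals `(f_1, …, f_k)`, `f_i = ∑_{π j = i} a_j x ^ (w j) + h_i`, where the exponents of `h_i` are
  in the convex hull of the `w j`, `π j = i`, the coefficients of the `h_i` are in the field `F`, and
  the `a_j` are algebraically independent over `F` -/
  | generic (r k N : ℕ) (hr : 1 ≤ r) (F : Subfield ℂ) (π : Fin r → Fin k)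
      (w : Fin r → Fin N → ℕ) (hw : Function.Injective fun j => (π j, w j))
      (h : Fin k → MvPolynomial (Fin N) F) (hh : ∀ i, ∀ u ∈ (h i).support, HullAt π w i u)
      (a : Fin r → ℂ) (ha : AlgebraicIndependent F a) (R : SmoothFan (k + N))
      (hR : Principal (cay π w) R) :
      Gen ⟨Fin N, Fin k, fun i => gens π w a i + MvPolynomial.map (algebraMap F ℂ) (h i)⟩
        (topZetaI π w R)
  /-- hypersurfaces `∑_j a_j x ^ (v j) + h = 0`, where the exponents of `h` are in the convex hull of
  the `v j ≠ 0`, the coefficients of `h` are in the field `F`, and the `a_j` are algebraically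
  independent over `F` -/
  | hyper (r N : ℕ) (hr : 1 ≤ r) (F : Subfield ℂ) (v : Fin r → Fin N → ℕ)
      (hv : Function.Injective v) (hv0 : ∀ j, v j ≠ 0) (h : MvPolynomial (Fin N) F)
      (hh : ∀ w ∈ h.support, Hull v w) (a : Fin r → ℂ) (ha : AlgebraicIndependent F a)
      (R : SmoothFan N) (hR : Principal v R) :
      Gen ⟨Fin N, Fin 1, fun _ => sparse v a + MvPolynomial.map (algebraMap F ℂ) h⟩
        (topZetaG v R)
  /-- the ideals in the list `Basic` with simple poles: the ideal `(x ^ m)` of `ℂ[x]`, the ideals of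
  `ℂ[x₀, x₁, x₂]` generated by forms of degree `d`, three of which are algebraically independent, and
  the ideals of `ℂ[x₀, …, xₙ]` generated by forms of degree `d` without a common zero outside the
  origin, `n + 1` of which are algebraically independent -/
  | basic (A : Fam) (Z : RatFunc ℂ) (h : Basic (fun _ f Z => PlaneZeta f Z) A Z)
      (h1 : ∀ s : ℂ, Z.denom.rootMultiplicity s ≤ 1) : Gen A Z
  /-- the sum of two ideals in disjoint sets of variables: if `1 - Z = s ∫ V(t) exp(- s t) dt` and
  `1 - W = s ∫ W'(t) exp(- s t) dt`, where no constant function occurs in the exponential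
  polynomials `V`, `W'` (given by `v` and `w`), then the topological zeta function of the sum is
  `1 - s ∫ V(t) W'(t) exp(- s t) dt` -/
  | sum (A B : Fam) (Z W : RatFunc ℂ) (v w : ℂ × ℕ →₀ ℂ) (hv : 1 - Z = RatFunc.X * lap v)
      (hw : 1 - W = RatFunc.X * lap w) (hv0 : ∀ p ∈ v.support, p.1 ≠ 0)
      (hw0 : ∀ p ∈ w.support, p.1 ≠ 0) (hA : Gen A Z) (hB : Gen B W) :
      Gen (A.sum B) (1 - RatFunc.X * lap2 v w)
  /-- the product of two ideals in disjoint sets of variables -/
  | mul (A B : Fam) (Z W : RatFunc ℂ) (hA : Gen A Z) (hB : Gen B W) : Gen (A.mul B) (Z * W)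
  /-- the powers of an ideal; if `p(s) / q(s)` is the topological zeta function of `I`, then
  `p(k s) / q(k s)` is the one of `I ^ k` -/
  | pow (A : Fam) (k : ℕ) (hk : k ≠ 0) (p q : Polynomial ℂ) (hq : q ≠ 0)
      (h : Gen A (algebraMap (Polynomial ℂ) (RatFunc ℂ) p /
        algebraMap (Polynomial ℂ) (RatFunc ℂ) q)) :
      Gen (powFam A k)
        (algebraMap (Polynomial ℂ) (RatFunc ℂ) (p.comp (Polynomial.C (k : ℂ) * Polynomial.X)) /
          algebraMap (Polynomial ℂ) (RatFunc ℂ) (q.comp (Polynomial.C (k : ℂ) * Polynomial.X)))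
  /-- the polynomial `∑ y_j f_j(x)` has the topological zeta function `Z / (s + 1)` -/
  | univ (A : Fam) (Z : RatFunc ℂ) (hA : Gen A Z) : Gen (univFam A) (Z * (RatFunc.X + 1)⁻¹)
  /-- the polynomial `h(x) ∏_t (∑_j y_{t, j} f_{t, j}(x)) ^ a_t` has the topological zeta function
  `Z ∏_t 1 / (a_t s + 1)`, if `Z` is the one of the ideal `h ∏_t (f_{t, j})_j ^ a_t` -/
  | form (σ τ : Type) [Fintype τ] [DecidableEq τ] [Nonempty τ] (κ : τ → Type)
      [∀ t, Fintype (κ t)] (a : τ → ℕ) (ha : ∀ t, 0 < a t) (h : MvPolynomial σ ℂ)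
      (f : (t : τ) → κ t → MvPolynomial σ ℂ) (Z : RatFunc ℂ) (hA : Gen (genFam a h f) Z) :
      Gen (formFam a h f) (Z * ∏ t, fac (a t) 1)
  /-- the Thom-Sebastiani sum `∑ y_j f_j(x) + g(z)`: if `1 - Z = s ∫ V(t) exp(- s t) dt` and
  `1 - (s + 1) W = s ∫ U(t) exp(- s t) dt - c s`, where no constant function occurs in the
  exponential polynomials `V`, `U` (given by `v` and `w`), then
  `1 - (s + 1) Z_F = s ∫ V(t) U(t) exp(- s t) dt - c V(0) s` -/
  | ts (A : Fam) (τ : Type) (g : MvPolynomial τ ℂ) (Z W : RatFunc ℂ) (v w : ℂ × ℕ →₀ ℂ) (c : ℂ)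
      (hv : 1 - Z = RatFunc.X * lap v)
      (hw : 1 - (RatFunc.X + 1) * W = RatFunc.X * (lap w - RatFunc.C c))
      (hv0 : ∀ p ∈ v.support, p.1 ≠ 0) (hw0 : ∀ p ∈ w.support, p.1 ≠ 0)
      (hA : Gen A Z) (hg : Gen ⟨τ, Fin 1, fun _ => g⟩ W) :
      Gen (tsFam A τ g)
        ((1 - RatFunc.X * (lap2 v w - RatFunc.C (c * val0 v))) * (RatFunc.X + 1)⁻¹)
  /-- variables which do not occur may be dropped -/
  | drop (σ κ : Type) (g : MvPolynomial σ ℂ) (Z : RatFunc ℂ)
      (h : Gen ⟨σ ⊕ κ, Fin 1, fun _ => rename Sum.inl g⟩ Z) : Gen ⟨σ, Fin 1, fun _ => g⟩ Z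
  /-- the variables and the generators may be indexed differently -/
  | equiv (A B : Fam) (i : A.σ ≃ B.σ) (k : A.ι ≃ B.ι)
      (h : ∀ j, B.f (k j) = rename i (A.f j)) (Z : RatFunc ℂ) (hA : Gen A Z) : Gen B Z

theorem strong_of_gen {A : Fam} {Z : RatFunc ℂ} (h : Gen A Z) :
    Pool.Agent.L5helper20.MQ.Strong A Z := by
  induction h with
  | given A Z h1 h2 h3 h4 => exact ⟨h1, h2, h3, h4⟩
  | plane κ f hf Z hZ => exact Pool.Agent.L5helper20.MQ.strong_plane f hf Z hZ
  | generic r k N hr F π w hw h hh a ha R hR =>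
    exact Pool.Agent.L5helper20.MQ.strong_generic r k N hr F π w hw h hh a ha R hR
  | hyper r N hr F v hv hv0 h hh a ha R hR =>
    exact Pool.Agent.L5helper20.MQ.strong_hyper r N hr F v hv hv0 h hh a ha R hR
  | basic A Z h h1 =>
    exact Pool.Agent.L5helper20.MQ.strong_simple A Z
      (TPw.atom A Z (StrongAt.all A Z (Pool.Agent.Y228.AT.AllGlobal.basic A Z h))) h1
  | sum A B Z W v w hv hw hv0 hw0 hA hB ihA ihB =>
    exact Pool.Agent.L5helper20.MQ.strong_sum A B Z W v w hv hw hv0 hw0 ihA ihB
  | mul A B Z W hA hB ihA ihB => exact Pool.Agent.L5helper20.MQ.strong_mul A B Z W ihA ihB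
  | pow A k hk p q hq h ih => exact Pool.Agent.L5helper20.MQ.strong_pow A k hk p q hq ih
  | univ A Z hA ih => exact Pool.Agent.L5helper20.MQ.strong_univ A Z ih
  | form σ τ κ a ha h f Z hA ih =>
    exact Pool.Agent.L5helper20.MQ.strong_form σ κ a ha h f Z ih
  | ts A τ g Z W v w c hv hw hv0 hw0 hA hg ihA ihg =>
    exact Pool.Agent.L5helper20.MQ.strong_ts A τ g Z W v w c hv hw hv0 hw0 ihA ihg
  | drop σ κ g Z h ih => exact Pool.Agent.L5helper20.MQ.strong_drop σ κ g Z ih
  | equiv A B i k h Z hA ih => exact Pool.Agent.L5helper20.MQ.strong_equiv A B i k h Z ih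

/-- **The stronger form for all the ideals in the class `Gen`.** For every pair `(A, Z)` in `Gen` and
every polynomial `b` which satisfies a functional equation of the generators `A.f`, in particular for
the Bernstein-Sato polynomial of the ideal, `b Z` is a polynomial (and the poles of `Z` have
negative real part). If the ideal is generated by one polynomial `F` then `b Z` is a polynomial for
all `b` with `b(s) F ^ s ∈ D[s] F ^ (s + 1)`, in particular for the Bernstein-Sato polynomial of `F`. -/
theorem result :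
    (∀ (A : Fam) (Z : RatFunc ℂ), Gen A Z → (∀ s : ℂ, Z.denom.eval s = 0 → s.re < 0) ∧
      ∀ b : Polynomial ℂ, IsFunctionalEq A.f b → ∃ P : Polynomial ℂ,
        algebraMap (Polynomial ℂ) (RatFunc ℂ) b * Z =
          algebraMap (Polynomial ℂ) (RatFunc ℂ) P) ∧
    ∀ (σ : Type) (F : MvPolynomial σ ℂ) (Z : RatFunc ℂ), Gen ⟨σ, Fin 1, fun _ => F⟩ Z →
      ∀ b : Polynomial ℂ, IsBFunction F b → ∃ P : Polynomial ℂ,
        algebraMap (Polynomial ℂ) (RatFunc ℂ) b * Z =
          algebraMap (Polynomial ℂ) (RatFunc ℂ) P :=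
  ⟨fun _ _ h => ⟨(strong_of_gen h).neg, (strong_of_gen h).poly⟩, fun _ F _ h b hb =>
    (strong_of_gen h).poly b (Pool.Agent.Y230.PS.single_of_isB F b hb)⟩

end Pool.Agent.Results.MP_ee8c61_ag.StrongerFormClosure
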